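import Pool.Agent.H41.HYP.S3

/-!
# HYP, row KEY: the pair of matrices of a bad class
-/

set_option autoImplicit false

namespace Pool.HYP

open Polynomial Matrix Pool.AVS Pool.AVR

namespace H2

section Tau

variable {K : Type} [Field K]

/-- The functional `τ` is linear. -/
noncomputable def tl (f : K[X]) : K[X] →ₗ[K] K :=
  (lcoeff K (f.natDegree - 1)).comp (modByMonicHom f)

theorem tl_apply (f p : K[X]) : tl f p = tau f p := rfl

theorem gr_comb {n k : ℕ} (f h : K[X]) (M : Matrix (Fin n) (Fin n) K) (i j : Fin n) :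
    tau f (X ^ k * ((∑ a : Fin n, C (M a i) * X ^ (a : ℕ)) *
      (∑ b : Fin n, C (M b j) * X ^ (b : ℕ)) * h)) = (Mᵀ * gr k n f h * M) i j := by
  rw [← tl_apply, Matrix.mul_assoc, Matrix.mul_apply]
  have h1 : X ^ k * ((∑ a : Fin n, C (M a i) * X ^ (a : ℕ)) *
      (∑ b : Fin n, C (M b j) * X ^ (b : ℕ)) * h) =
      ∑ a : Fin n, ∑ b : Fin n, (M a i * M b j) • (X ^ ((a : ℕ) + (b : ℕ) + k) * h) := by
    rw [Finset.sum_mul_sum, Finset.sum_mul, Finset.mul_sum]
    refine Finset.sum_congr rfl fun a _ => ?_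
    rw [Finset.sum_mul, Finset.mul_sum]
    refine Finset.sum_congr rfl fun b _ => ?_
    rw [smul_eq_C_mul, C_mul]
    ring
  rw [h1, map_sum]
  refine Finset.sum_congr rfl fun a _ => ?_
  rw [map_sum, Matrix.transpose_apply, Matrix.mul_apply, Finset.mul_sum]
  refine Finset.sum_congr rfl fun b _ => ?_
  rw [map_smul, smul_eq_mul, tl_apply]
  show M a i * M b j * tau f _ = M a i * (tau f _ * M b j)
  ring

theorem rep_comb {n : ℕ} (f h : K[X]) (M : Matrix (Fin n) (Fin n) K) :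
    Rep n f h (Mᵀ * gr 0 n f h * M) (Mᵀ * gr 1 n f h * M) := by
  refine ⟨fun i => ∑ a : Fin n, C (M a i) * X ^ (a : ℕ), fun i j => ?_, fun i j => ?_⟩
  · rw [← gr_comb, pow_zero, one_mul]
  · rw [← gr_comb, pow_one]

end Tau

section Inf

variable {F : Type} [Field F]

theorem deg_pow (n : ℕ) : ((RatFunc.X : RatFunc F) ^ n).intDegree = n := by
  induction n with
  | zero => simp
  | succ k ih =>
    rw [pow_succ, RatFunc.intDegree_mul (pow_ne_zero _ RatFunc.X_ne_zero) RatFunc.X_ne_zero, ih,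
      RatFunc.intDegree_X]
    push_cast
    ring

theorem deg_zpow (n : ℤ) : ((RatFunc.X : RatFunc F) ^ n).intDegree = n := by
  obtain ⟨k, rfl | rfl⟩ := n.eq_nat_or_neg
  · simpa using deg_pow k
  · rw [_root_.zpow_neg, RatFunc.intDegree_inv]
    simpa using deg_pow k

theorem degLe_of {p : F[X]} {m : ℤ} {x : RatFunc F} (hx : x ∈ Iinf F)
    (h : rf p = (RatFunc.X : RatFunc F) ^ m * x) : DegLe p m := by
  intro hp
  have hp' : rf p ≠ 0 := by simpa using hp
  have hx0 : x ≠ 0 := by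
    rintro rfl
    rw [mul_zero] at h
    exact hp' h
  have hX0 : (RatFunc.X : RatFunc F) ^ m ≠ 0 := zpow_ne_zero _ RatFunc.X_ne_zero
  have h1 := congrArg RatFunc.intDegree h
  rw [RatFunc.intDegree_mul hX0 hx0, deg_zpow, RatFunc.intDegree_polynomial] at h1
  have h2 : x.intDegree ≤ 0 := hx
  linarith

theorem MIn.mul {n : ℕ} {A B : Matrix (Fin n) (Fin n) (RatFunc F)} (hA : MIn (Iinf F) A)
    (hB : MIn (Iinf F) B) : MIn (Iinf F) (A * B) := by
  intro i j
  rw [Matrix.mul_apply]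
  exact (OInf F).sum_mem fun k _ => (OInf F).mul_mem (hA i k) (hB k j)

theorem MIn.tr {n : ℕ} {A : Matrix (Fin n) (Fin n) (RatFunc F)} (hA : MIn (Iinf F) A) :
    MIn (Iinf F) Aᵀ := fun i j => hA j i

theorem ui_deg {x : RatFunc F} (h : UI (Iinf F) x) : x.intDegree = 0 := by
  obtain ⟨-, h1, h2⟩ := h
  have h3 : x.intDegree ≤ 0 := h1
  have h4 : x⁻¹.intDegree ≤ 0 := h2
  rw [RatFunc.intDegree_inv] at h4
  omega

end Inf

end H2

open H2

/-- **KEY.** -/
theorem key (hLATT : LATTStmt) (hINF : INFStmt) (hIRR : IRRStmt) (hBIRN : BIRNStmt)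
    (hDSYM : DSYMStmt) (hDDM : DDMStmt) (hDIST : DISTStmt) (hCHP : CHPStmt) : KEYStmt := by
  intro F _ _ h2 g D h hg hOk f hf hbad
  have hf' := hf
  obtain ⟨hm, hdeg, hco, hT⟩ := hf
  obtain ⟨α, hcop, hN, hns, hUS, hTR⟩ := hbad
  obtain ⟨g1, G0, S0, hg1, hG0, hS0, hG0t, hS0t, hG0u, hstd⟩ := hLATT F (2 * g + 1) f α D.T hm hdeg
    hcop (fun P hP => ⟨(hOk.1 P hP).1, (hOk.1 P hP).2.1⟩) hUS hTR
  obtain ⟨gi, hgi, hgiG, hgiS⟩ := hINF F g D h hOk.2.1 hOk.2.2.1 hOk.2.2.2 f hf' α hcop hN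
  obtain ⟨γ, d, κ, hd, hγ, hκ, hbir⟩ := hBIRN F (2 * g + 1) (gi⁻¹ * g1) (by
    rw [Matrix.det_mul, Matrix.det_nonsing_inv]
    refine mul_ne_zero ?_ hg1
    rw [Ring.inverse_eq_inv']
    exact inv_ne_zero hgi)
  have hinj : Function.Injective (algebraMap F[X] (RatFunc F)) := RatFunc.algebraMap_injective F
  obtain ⟨Dg, hDg⟩ : ∃ Dg : Matrix (Fin (2 * g + 1)) (Fin (2 * g + 1)) (RatFunc F),
    Dg = Matrix.diagonal (fun i => (RatFunc.X : RatFunc F) ^ d i) := ⟨_, rfl⟩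
  obtain ⟨M, hM⟩ : ∃ M, M = g1 * mK γ := ⟨_, rfl⟩
  have hM2 : M = gi * (κ * Dg) := by
    rw [hM, hDg, ← hbir, ← Matrix.mul_assoc, ← Matrix.mul_assoc,
      Matrix.mul_nonsing_inv _ (isUnit_iff_ne_zero.2 hgi), Matrix.one_mul]
  obtain ⟨G, hG⟩ : ∃ G, G = γᵀ * G0 * γ := ⟨_, rfl⟩
  obtain ⟨S, hS⟩ : ∃ S, S = γᵀ * S0 * γ := ⟨_, rfl⟩
  have hmul : ∀ A B : Matrix (Fin (2 * g + 1)) (Fin (2 * g + 1)) F[X],
      mK (A * B) = mK A * mK B := fun A B => by
    rw [mK, Matrix.map_mul]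
  have htr : ∀ A : Matrix (Fin (2 * g + 1)) (Fin (2 * g + 1)) F[X],
      mK Aᵀ = (mK A)ᵀ := fun A => by
    rw [mK, Matrix.transpose_map]
  have hdet : ∀ A : Matrix (Fin (2 * g + 1)) (Fin (2 * g + 1)) F[X],
      (mK A).det = rf A.det := fun A => by
    rw [mK, rf, RingHom.map_det]
    rfl
  have hMG : mK G = Mᵀ * gr 0 (2 * g + 1) (fK f) α * M := by
    rw [hG, hmul, hmul, htr, ← hG0, hM, Matrix.transpose_mul]
    simp only [Matrix.mul_assoc]
  have hMS : mK S = Mᵀ * gr 1 (2 * g + 1) (fK f) α * M := by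
    rw [hS, hmul, hmul, htr, ← hS0, hM, Matrix.transpose_mul]
    simp only [Matrix.mul_assoc]
  obtain ⟨A0, hA0⟩ : ∃ A0, A0 = giᵀ * gr 0 (2 * g + 1) (fK f) α * gi := ⟨_, rfl⟩
  obtain ⟨A1, hA1⟩ : ∃ A1, A1 = giᵀ * gr 1 (2 * g + 1) (fK f) α * gi := ⟨_, rfl⟩
  rw [← hA0] at hgiG
  rw [← hA1] at hgiS
  have hDt : Dgᵀ = Dg := by rw [hDg, Matrix.diagonal_transpose]
  have hG2 : mK G = Dg * (κᵀ * A0 * κ) * Dg := by
    rw [hMG, hM2, hA0, Matrix.transpose_mul, Matrix.transpose_mul, hDt]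
    simp only [Matrix.mul_assoc]
  have hS2 : mK S = Dg * (κᵀ * A1 * κ) * Dg := by
    rw [hMS, hM2, hA1, Matrix.transpose_mul, Matrix.transpose_mul, hDt]
    simp only [Matrix.mul_assoc]
  have hX0 : (RatFunc.X : RatFunc F) ≠ 0 := RatFunc.X_ne_zero
  have hDD : ∀ (A : Matrix (Fin (2 * g + 1)) (Fin (2 * g + 1)) (RatFunc F)) (i j),
      (Dg * A * Dg) i j = (RatFunc.X : RatFunc F) ^ (d i + d j) * A i j := fun A i j => by
    rw [hDg, Matrix.mul_diagonal, Matrix.diagonal_mul, zpow_add₀ hX0]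
    ring
  have hdG : ∀ i j, DegLe (G i j) (d i + d j) := fun i j => by
    refine degLe_of (x := (κᵀ * A0 * κ) i j)
      (MIn.mul (MIn.mul (MIn.tr hκ.1) hgiG.1) hκ.1 i j) ?_
    rw [← hDD, ← hG2]
    rfl
  have hdS : ∀ i j, DegLe (S i j) (d i + d j + h) := fun i j => by
    refine degLe_of (x := (κᵀ * (((RatFunc.X : RatFunc F) ^ (-(h : ℤ))) • A1) * κ) i j)
      (MIn.mul (MIn.mul (MIn.tr hκ.1) hgiS) hκ.1 i j) ?_
    have h3 : mK S i j = (RatFunc.X : RatFunc F) ^ (d i + d j) * (κᵀ * A1 * κ) i j := by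
      rw [hS2, hDD]
    have h4 : rf (S i j) = mK S i j := rfl
    rw [h4, h3, Matrix.mul_smul, Matrix.smul_mul, Matrix.smul_apply, smul_eq_mul, ← mul_assoc,
      ← zpow_add₀ hX0]
    congr 2
    ring
  have hGu : IsUnit G.det := by
    rw [hG, Matrix.det_mul, Matrix.det_mul, Matrix.det_transpose]
    exact (hγ.mul hG0u).mul hγ
  have hGd : G.det ≠ 0 := hGu.ne_zero
  have hsum : ∑ i, d i = 0 := by
    have h3 : (mK G).det = rf G.det := hdet G
    rw [hG2, Matrix.det_mul, Matrix.det_mul, Matrix.det_mul, Matrix.det_mul,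
      Matrix.det_transpose, hDg, Matrix.det_diagonal] at h3
    have hD0 : ∀ s : Finset (Fin (2 * g + 1)),
        (∏ i ∈ s, (RatFunc.X : RatFunc F) ^ d i) ≠ 0 := fun s =>
      Finset.prod_ne_zero_iff.2 fun i _ => zpow_ne_zero _ hX0
    have hDs : ∀ s : Finset (Fin (2 * g + 1)),
        (∏ i ∈ s, (RatFunc.X : RatFunc F) ^ d i).intDegree = ∑ i ∈ s, d i := fun s => by
      classical
      induction s using Finset.induction_on with
      | empty => simp
      | insert a s ha ih =>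
        rw [Finset.prod_insert ha, Finset.sum_insert ha,
          RatFunc.intDegree_mul (zpow_ne_zero _ hX0) (hD0 s), deg_zpow, ih]
    have k0 := hκ.2.1
    have a0 := hgiG.2.1
    have h4 := congrArg RatFunc.intDegree h3
    rw [RatFunc.intDegree_mul (mul_ne_zero (hD0 _) (mul_ne_zero (mul_ne_zero k0 a0) k0)) (hD0 _),
      RatFunc.intDegree_mul (hD0 _) (mul_ne_zero (mul_ne_zero k0 a0) k0),
      RatFunc.intDegree_mul (mul_ne_zero k0 a0) k0, RatFunc.intDegree_mul k0 a0, hDs,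
      ui_deg hκ.2, ui_deg hgiG.2, RatFunc.intDegree_polynomial,
      Polynomial.natDegree_eq_zero_of_isUnit hGu] at h4
    push_cast at h4
    linarith
  obtain ⟨μ, hμ, hdμ⟩ := hDDM g d hd (hDSYM F (2 * g + 1) G d hd hGd hdG hsum)
  rw [hdμ] at hdG hdS
  have hfm : (fK f).Monic := hm.map _
  have hfd : (fK f).natDegree = 2 * g + 1 := by rw [hm.natDegree_map, hdeg]
  have hrep : Rep (2 * g + 1) (fK f) α (mK G) (mK S) := by
    rw [hMG, hMS]
    exact rep_comb _ _ _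
  have hKd : (mK G).det ≠ 0 := by
    rw [hdet]
    intro h3
    exact hGd (hinj (by rw [map_zero]; exact h3))
  refine ⟨μ, G, S, hμ, ?_, ?_, hdG, hdS, hGu, ?_, fun P hP => ?_, fun hz => ?_⟩
  · rw [hG, Matrix.transpose_mul, Matrix.transpose_mul, hG0t, Matrix.transpose_transpose,
      Matrix.mul_assoc]
  · rw [hS, Matrix.transpose_mul, Matrix.transpose_mul, hS0t, Matrix.transpose_transpose,
      Matrix.mul_assoc]
  · have h3 := hCHP (RatFunc F) (2 * g + 1) (fK f) α (mK G) (mK S) hfm hfd hrep hKd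
    have h4 : pen (mK G) (mK S) = (Polynomial.mapRingHom (algebraMap F[X] (RatFunc F))).mapMatrix
        (pen G S) := by
      refine Matrix.ext fun i j => ?_
      show X * C ((algebraMap F[X] (RatFunc F)) (G i j)) - C ((algebraMap F[X] (RatFunc F)) (S i j))
        = Polynomial.map (algebraMap F[X] (RatFunc F)) (X * C (G i j) - C (S i j))
      rw [Polynomial.map_sub, Polynomial.map_mul, Polynomial.map_X, Polynomial.map_C,
        Polynomial.map_C]
    rw [h4, ← RingHom.map_det, hdet] at h3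
    have h5 : Function.Injective (Polynomial.map (algebraMap F[X] (RatFunc F))) :=
      Polynomial.map_injective _ hinj
    refine h5 ?_
    rw [Polynomial.map_mul, Polynomial.map_C]
    exact h3
  · obtain ⟨a, ha, haG, haS⟩ := hstd P hP
    have hPp : Prime P := (hOk.1 P hP).2.1.prime
    have hsand : ∀ B : Matrix (Fin (2 * g + 1)) (Fin (2 * g + 1)) F[X],
        (∀ i j, P ∣ B i j) → ∀ i j, P ∣ (γᵀ * B * γ) i j := fun B hB i j => by
      rw [Matrix.mul_apply]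
      refine Finset.dvd_sum fun k _ => Dvd.dvd.mul_right ?_ _
      rw [Matrix.mul_apply]
      exact Finset.dvd_sum fun k' _ => Dvd.dvd.mul_left (hB _ _) _
    refine ⟨a * γ, ?_, fun i j => ?_, fun i j => ?_⟩
    · rw [Matrix.det_mul]
      intro h3
      rcases hPp.dvd_or_dvd h3 with h4 | h4
      · exact ha h4
      · exact hPp.not_isUnit (isUnit_of_dvd_unit h4 hγ)
    · have h3 : G - (a * γ)ᵀ * gr 0 (2 * g + 1) f 1 * (a * γ) =
          γᵀ * (G0 - aᵀ * gr 0 (2 * g + 1) f 1 * a) * γ := by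
        rw [hG, Matrix.transpose_mul, Matrix.mul_sub, Matrix.sub_mul]
        simp only [Matrix.mul_assoc]
      rw [h3]
      exact hsand _ haG i j
    · have h3 : S - (a * γ)ᵀ * gr 1 (2 * g + 1) f 1 * (a * γ) =
          γᵀ * (S0 - aᵀ * gr 1 (2 * g + 1) f 1 * a) * γ := by
        rw [hS, Matrix.transpose_mul, Matrix.mul_sub, Matrix.sub_mul]
        simp only [Matrix.mul_assoc]
      rw [h3]
      exact hsand _ haS i j
  · refine hns (hDIST (RatFunc F) g (fK f) α (mK G) (mK S) hg hfm hfd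
      (hIRR F g D h hOk.2.1 hOk.2.2.1 hOk.2.2.2 f hf') hN hKd hrep fun i j hi hj => ?_)
    obtain ⟨h3, h4⟩ := hz i j hi hj
    constructor
    · show algebraMap F[X] (RatFunc F) (G i j) = 0
      rw [h3, map_zero]
    · show algebraMap F[X] (RatFunc F) (S i j) = 0
      rw [h4, map_zero]

end Pool.HYP
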