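import Pool.Agent.H41.HYP.S4

/-!
# HYP, row CX3: singular symmetric matrices over a finite field
-/

set_option autoImplicit false

namespace Pool.HYP

open Polynomial Matrix Pool.AVS

/-- The number of symmetric matrices. -/
theorem H2.sym_card (k : Type) [Field k] [Finite k] (n : ℕ) :
    {G : Matrix (Fin n) (Fin n) k | Gᵀ = G}.ncard ≤ Nat.card k ^ (n * (n + 1) / 2) := by
  have h1 : {G : Matrix (Fin n) (Fin n) k | Gᵀ = G} ⊆
      (fun φ : Sym2 (Fin n) → k => Matrix.of fun i j => φ s(i, j)) '' Set.univ := by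
    intro G hG
    have hG' : ∀ i j, G i j = G j i := fun i j => by
      have : Gᵀ = G := hG
      rw [← this, Matrix.transpose_apply, this]
    refine ⟨Sym2.lift ⟨fun i j => G i j, hG'⟩, Set.mem_univ _, ?_⟩
    ext i j
    rfl
  refine (Set.ncard_le_ncard h1 (Set.toFinite _)).trans ((Set.ncard_image_le (Set.toFinite _)).trans
    (le_of_eq ?_))
  rw [Set.ncard_univ, Nat.card_fun, Nat.card_eq_fintype_card (α := Sym2 (Fin n)), Sym2.card,
    Fintype.card_fin, Nat.choose_two_right, Nat.add_sub_cancel, mul_comm]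

/-- **CX3.** -/
theorem cx3 : CX3Stmt := by
  classical
  intro k _ _ n
  haveI : Fintype k := Fintype.ofFinite k
  obtain ⟨Z, hZ⟩ : ∃ Z : Finset (Matrix (Fin n) (Fin n) k),
    Z = Finset.univ.filter fun G => Gᵀ = G ∧ G.det = 0 := ⟨_, rfl⟩
  obtain ⟨Y, hY⟩ : ∃ Y : Finset (Matrix (Fin n) (Fin n) k),
    Y = Finset.univ.filter fun G => Gᵀ = G := ⟨_, rfl⟩
  have e1 : {G : Matrix (Fin n) (Fin n) k | Gᵀ = G ∧ G.det = 0}.ncard = Z.card := by
    rw [← Set.ncard_coe_finset, hZ]
    congr 1
    ext G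
    simp
  have e2 : {G : Matrix (Fin n) (Fin n) k | Gᵀ = G}.ncard = Y.card := by
    rw [← Set.ncard_coe_finset, hY]
    congr 1
    ext G
    simp
  have h1 := H2.sym_card k n
  rw [e2] at h1
  rw [e1]
  obtain ⟨f, hf⟩ : ∃ f : Matrix (Fin n) (Fin n) k × k → Matrix (Fin n) (Fin n) k,
    f = fun x => x.1 - Matrix.scalar (Fin n) x.2 := ⟨_, rfl⟩
  have h2 : (Z ×ˢ (Finset.univ : Finset k)).card ≤ n *
      ((Z ×ˢ (Finset.univ : Finset k)).image f).card := by
    refine Finset.card_le_mul_card_image _ _ fun G' _ => ?_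
    -- the fibre
    have h3 : ((Z ×ˢ (Finset.univ : Finset k)).filter fun x => f x = G').card ≤
        ((-G').charpoly.roots.toFinset).card := by
      refine Finset.card_le_card_of_injOn (fun x => x.2) ?_ ?_
      · intro x hx
        rw [Finset.mem_coe, Finset.mem_filter, Finset.mem_product, hZ, Finset.mem_filter] at hx
        obtain ⟨⟨⟨-, -, hx1⟩, -⟩, hx2⟩ := hx
        rw [Finset.mem_coe, Multiset.mem_toFinset, mem_roots (Matrix.charpoly_monic _).ne_zero,
          IsRoot.def, Matrix.eval_charpoly]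
        rw [hf] at hx2
        have h4 : Matrix.scalar (Fin n) x.2 - -G' = x.1 := by
          rw [← hx2]
          show Matrix.scalar (Fin n) x.2 - -(x.1 - Matrix.scalar (Fin n) x.2) = x.1
          abel
        show (Matrix.scalar (Fin n) x.2 - -G').det = 0
        rw [h4, hx1]
      · intro x hx y hy hxy
        rw [Finset.mem_coe, Finset.mem_filter] at hx hy
        have h4 := hx.2.trans hy.2.symm
        rw [hf] at h4
        have h5 : x.2 = y.2 := hxy
        refine Prod.ext ?_ h5
        have h6 : x.1 - Matrix.scalar (Fin n) x.2 = y.1 - Matrix.scalar (Fin n) y.2 := h4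
        rw [h5] at h6
        exact sub_left_inj.1 h6
    refine h3.trans ((Multiset.toFinset_card_le _).trans ((card_roots' _).trans ?_))
    rw [Matrix.charpoly_natDegree_eq_dim, Fintype.card_fin]
  have h3 : (Z ×ˢ (Finset.univ : Finset k)).image f ⊆ Y := by
    intro G' hG'
    obtain ⟨x, hx, rfl⟩ := Finset.mem_image.1 hG'
    rw [Finset.mem_product, hZ, Finset.mem_filter] at hx
    rw [hY, Finset.mem_filter, hf]
    refine ⟨Finset.mem_univ _, ?_⟩
    show (x.1 - Matrix.scalar (Fin n) x.2)ᵀ = _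
    rw [Matrix.transpose_sub, hx.1.2.1]
    congr 1
    ext i j
    simp [Matrix.scalar_apply, Matrix.diagonal_apply, eq_comm]
  rw [Finset.card_product, Finset.card_univ, ← Nat.card_eq_fintype_card] at h2
  exact h2.trans (Nat.mul_le_mul_left _ ((Finset.card_le_card h3).trans h1))

end Pool.HYP
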